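import Pool.Agent.TriCov.Lower

/-!
# The exact number of homothetic unit triangles needed to cover a triangle of side `x`

For a triangle `T` (in particular an equilateral one) and real `x > 0` we determine the least
number of translates of `T` and `-T` whose union contains `x T`.
-/

set_option autoImplicit false

namespace Pool.Agent.Results.MP_d1c650_co.HomotheticNumber

open Pool.Agent.TriCov

/-- The closed triangle with vertices `0`, `s b`, `s c`. -/
def Tri (b c : EuclideanSpace ℝ (Fin 2)) (s : ℝ) : Set (EuclideanSpace ℝ (Fin 2)) :=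
  convexHull ℝ {0, s • b, s • c}

/-- `A` is a translate of `Tri b c 1` or of `-Tri b c 1`. -/
def IsHomothetic (b c : EuclideanSpace ℝ (Fin 2)) (A : Set (EuclideanSpace ℝ (Fin 2))) : Prop :=
  ∃ z, A = {p | ∃ w ∈ Tri b c 1, p = z + w} ∨ A = {p | ∃ w ∈ Tri b c 1, p = z - w}

section

variable {b c : EuclideanSpace ℝ (Fin 2)}

/-- coordinates -/
noncomputable def phi (b c : EuclideanSpace ℝ (Fin 2)) (p : ℝ × ℝ) : EuclideanSpace ℝ (Fin 2) :=
  p.1 • b + p.2 • c

theorem phi_inj (h : LinearIndependent ℝ ![b, c]) {p q : ℝ × ℝ} (hpq : phi b c p = phi b c q) :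
    p = q := by
  rw [LinearIndependent.pair_iff] at h
  have h1 : (p.1 - q.1) • b + (p.2 - q.2) • c = 0 := by
    unfold phi at hpq
    rw [sub_smul, sub_smul]
    have : p.1 • b - q.1 • b + (p.2 • c - q.2 • c) = (p.1 • b + p.2 • c) - (q.1 • b + q.2 • c) := by
      abel
    rw [this, hpq, sub_self]
  obtain ⟨h2, h3⟩ := h _ _ h1
  exact Prod.ext (by linarith) (by linarith)

theorem phi_surj (h : LinearIndependent ℝ ![b, c]) (x : EuclideanSpace ℝ (Fin 2)) :
    ∃ p, phi b c p = x := by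
  have hcard : Fintype.card (Fin 2) = Module.finrank ℝ (EuclideanSpace ℝ (Fin 2)) := by simp
  set B := basisOfLinearIndependentOfCardEqFinrank h hcard with hB
  refine ⟨(B.repr x 0, B.repr x 1), ?_⟩
  have h1 := B.sum_repr x
  rw [Fin.sum_univ_two] at h1
  simp only [hB, coe_basisOfLinearIndependentOfCardEqFinrank, Matrix.cons_val_zero,
    Matrix.cons_val_one] at h1
  unfold phi
  exact h1

theorem phi_add (p q : ℝ × ℝ) : phi b c (p + q) = phi b c p + phi b c q := by
  simp only [phi, Prod.fst_add, Prod.snd_add, add_smul]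
  abel

theorem phi_sub (p q : ℝ × ℝ) : phi b c (p - q) = phi b c p - phi b c q := by
  simp only [phi, Prod.fst_sub, Prod.snd_sub, sub_smul]
  abel

theorem tri_eq (s : ℝ) (hs : 0 < s) : Tri b c s = phi b c '' Del s := by
  apply Set.Subset.antisymm
  · apply convexHull_min
    · intro x hx
      simp only [Set.mem_insert_iff, Set.mem_singleton_iff] at hx
      rcases hx with rfl | rfl | rfl
      · exact ⟨(0, 0), ⟨le_refl _, le_refl _, by simp [hs.le]⟩, by simp [phi]⟩
      · exact ⟨(s, 0), ⟨hs.le, le_refl _, by simp⟩, by simp [phi]⟩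
      · exact ⟨(0, s), ⟨le_refl _, hs.le, by simp⟩, by simp [phi]⟩
    · rintro _ ⟨p, hp, rfl⟩ _ ⟨q, hq, rfl⟩ α β hα hβ hαβ
      refine ⟨(α * p.1 + β * q.1, α * p.2 + β * q.2), ⟨?_, ?_, ?_⟩, ?_⟩
      · have := hp.1; have := hq.1; simp only; positivity
      · have := hp.2.1; have := hq.2.1; simp only; positivity
      · have h1 := hp.2.2
        have h2 := hq.2.2
        simp only
        calc α * p.1 + β * q.1 + (α * p.2 + β * q.2) = α * (p.1 + p.2) + β * (q.1 + q.2) := by
              ring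
          _ ≤ α * s + β * s := by gcongr
          _ = s := by rw [← add_mul, hαβ, one_mul]
      · simp only [phi, smul_add, smul_smul, add_smul]
        abel
  · rintro _ ⟨⟨u, v⟩, ⟨hu, hv, huv⟩, rfl⟩
    simp only at hu hv huv
    have hconv := convex_convexHull ℝ ({0, s • b, s • c} : Set (EuclideanSpace ℝ (Fin 2)))
    have h1 := hconv.sum_mem (t := (Finset.univ : Finset (Fin 3)))
      (w := ![1 - (u + v) / s, u / s, v / s]) (z := ![0, s • b, s • c]) ?_ ?_ ?_
    · simp only [Fin.sum_univ_three, Matrix.cons_val_zero, Matrix.cons_val_one, Matrix.cons_val,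
        smul_zero, zero_add, smul_smul] at h1
      rw [div_mul_cancel₀ _ hs.ne', div_mul_cancel₀ _ hs.ne'] at h1
      exact h1
    · intro i _
      fin_cases i
      · simp only [Fin.zero_eta, Matrix.cons_val_zero, sub_nonneg]
        rwa [div_le_one hs]
      · exact div_nonneg hu hs.le
      · exact div_nonneg hv hs.le
    · simp only [Fin.sum_univ_three, Matrix.cons_val_zero, Matrix.cons_val_one, Matrix.cons_val]
      field_simp
      ring
    · intro i _
      apply subset_convexHull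
      fin_cases i <;> simp

theorem homothetic_iff (h : LinearIndependent ℝ ![b, c]) (A : Set (EuclideanSpace ℝ (Fin 2))) :
    IsHomothetic b c A ↔ ∃ a : (ℝ × ℝ) × Bool, A = phi b c '' Pc a := by
  have e1 : ∀ z : ℝ × ℝ, {p | ∃ w ∈ Tri b c 1, p = phi b c z + w} = phi b c '' Pc (z, true) := by
    intro z
    ext p
    rw [tri_eq 1 one_pos]
    constructor
    · rintro ⟨_, ⟨w, hw, rfl⟩, rfl⟩
      refine ⟨z + w, ?_, phi_add _ _⟩
      rw [mem_Pc_true]
      simp only [Prod.fst_add, Prod.snd_add]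
      exact ⟨by linarith [hw.1], by linarith [hw.2.1], by linarith [hw.2.2]⟩
    · rintro ⟨q, hq, rfl⟩
      rw [mem_Pc_true] at hq
      refine ⟨phi b c (q - z), ⟨q - z, ⟨?_, ?_, ?_⟩, rfl⟩, ?_⟩
      · simp only [Prod.fst_sub]; linarith [hq.1]
      · simp only [Prod.snd_sub]; linarith [hq.2.1]
      · simp only [Prod.fst_sub, Prod.snd_sub]; linarith [hq.2.2]
      · rw [← phi_add]; congr 1; abel
  have e2 : ∀ z : ℝ × ℝ, {p | ∃ w ∈ Tri b c 1, p = phi b c z - w} = phi b c '' Pc (z, false) := by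
    intro z
    ext p
    rw [tri_eq 1 one_pos]
    constructor
    · rintro ⟨_, ⟨w, hw, rfl⟩, rfl⟩
      refine ⟨z - w, ?_, phi_sub _ _⟩
      rw [mem_Pc_false]
      simp only [Prod.fst_sub, Prod.snd_sub]
      exact ⟨by linarith [hw.1], by linarith [hw.2.1], by linarith [hw.2.2]⟩
    · rintro ⟨q, hq, rfl⟩
      rw [mem_Pc_false] at hq
      refine ⟨phi b c (z - q), ⟨z - q, ⟨?_, ?_, ?_⟩, rfl⟩, ?_⟩
      · simp only [Prod.fst_sub]; linarith [hq.1]
      · simp only [Prod.snd_sub]; linarith [hq.2.1]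
      · simp only [Prod.fst_sub, Prod.snd_sub]; linarith [hq.2.2]
      · rw [← phi_sub]; congr 1; abel
  constructor
  · rintro ⟨z, hz⟩
    obtain ⟨z', rfl⟩ := phi_surj h z
    rcases hz with hz | hz
    · exact ⟨(z', true), by rw [hz, e1]⟩
    · exact ⟨(z', false), by rw [hz, e2]⟩
  · rintro ⟨⟨z, t⟩, rfl⟩
    refine ⟨phi b c z, ?_⟩
    cases t
    · right; rw [e2]
    · left; rw [e1]

end

/-- Let `T` be the triangle with vertices `0, b, c` (`b, c` linearly independent), `n` a natural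
number and `0 < ξ ≤ 1`.  Then `N` sets, each a translate of `T` or of `-T`, can cover
`(n + ξ) T` if and only if
`N ≥ min (n² + 2⌈(n+1)ξ⌉) (n² + 1 + 2⌈nξ⌉)`. -/
theorem result (b c : EuclideanSpace ℝ (Fin 2)) (h : LinearIndependent ℝ ![b, c])
    (n : ℕ) (ξ : ℝ) (h0 : 0 < ξ) (h1 : ξ ≤ 1) (N : ℕ) :
    (∃ F : Fin N → Set (EuclideanSpace ℝ (Fin 2)),
      (∀ i, IsHomothetic b c (F i)) ∧ Tri b c (n + ξ) ⊆ ⋃ i, F i) ↔
    min (n ^ 2 + 2 * ⌈((n : ℝ) + 1) * ξ⌉₊) (n ^ 2 + 1 + 2 * ⌈(n : ℝ) * ξ⌉₊) ≤ N := by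
  have hpos : (0 : ℝ) < n + ξ := by
    have : (0 : ℝ) ≤ n := Nat.cast_nonneg n
    linarith
  rw [← model n ξ h0 h1 N]
  constructor
  · rintro ⟨F, hF, hcov⟩
    choose a ha using fun i => (homothetic_iff h (F i)).1 (hF i)
    refine ⟨a, fun p hp => ?_⟩
    have h2 : phi b c p ∈ Tri b c (n + ξ) := by
      rw [tri_eq _ hpos]
      exact ⟨p, hp, rfl⟩
    obtain ⟨i, hi⟩ := Set.mem_iUnion.1 (hcov h2)
    rw [ha i] at hi
    obtain ⟨q, hq, hqp⟩ := hi
    exact ⟨i, by rw [← phi_inj h hqp]; exact hq⟩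
  · rintro ⟨G, hG⟩
    refine ⟨fun i => phi b c '' Pc (G i), fun i => (homothetic_iff h _).2 ⟨G i, rfl⟩, ?_⟩
    rw [tri_eq _ hpos]
    rintro _ ⟨p, hp, rfl⟩
    obtain ⟨i, hi⟩ := hG p hp
    exact Set.mem_iUnion.2 ⟨i, ⟨p, hi, rfl⟩⟩

end Pool.Agent.Results.MP_d1c650_co.HomotheticNumber
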