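import Pool.Agent.TurnOne.Exact

/-!
# Homothetic unit triangles and one unit triangle in arbitrary rotation

`Tri s` is the closed equilateral triangle with vertices `0`, `s`, `s e^(iπ/3)` in the complex
plane.  We cover `Tri x` by `u` translates of `Tri 1`, `d` translates of `-Tri 1` and one unit
equilateral triangle in arbitrary position and orientation.
-/

set_option autoImplicit false

namespace Pool.Agent.Results.MP_d1c650_co.OneTurnedTriangle

open Set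

/-- The closed triangle with vertices `0`, `s`, `s e^(iπ/3)`. -/
noncomputable def Tri (s : ℝ) : Set ℂ :=
  convexHull ℝ {0, (s : ℂ), (s : ℂ) * Complex.exp ((Real.pi : ℂ) / 3 * Complex.I)}

/-- `Tri x` is covered by `u` translates `P i + Tri 1`, `d` translates `Q j - Tri 1` and one
triangle `A B C` with all sides equal to `1`, in arbitrary position and orientation. -/
def Covers (x : ℝ) (u d : ℕ) : Prop :=
  ∃ (P : Fin u → ℂ) (Q : Fin d → ℂ) (A B C : ℂ),
    dist A B = 1 ∧ dist B C = 1 ∧ dist A C = 1 ∧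
    Tri x ⊆ (⋃ i, {p | ∃ w ∈ Tri 1, p = P i + w}) ∪ (⋃ j, {p | ∃ w ∈ Tri 1, p = Q j - w}) ∪
      convexHull ℝ ({A, B, C} : Set ℂ)

/-- The same, but the extra triangle `A`, `A + e`, `A + e e^(iπ/3)` with `e = 1` or `e = -1` is a
translate of `Tri 1` or of `-Tri 1`. -/
def CoversPar (x : ℝ) (u d : ℕ) : Prop :=
  ∃ (P : Fin u → ℂ) (Q : Fin d → ℂ) (A e : ℂ), (e = 1 ∨ e = -1) ∧
    Tri x ⊆ (⋃ i, {p | ∃ w ∈ Tri 1, p = P i + w}) ∪ (⋃ j, {p | ∃ w ∈ Tri 1, p = Q j - w}) ∪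
      convexHull ℝ ({A, A + e, A + e * Complex.exp ((Real.pi : ℂ) / 3 * Complex.I)} : Set ℂ)

/-- (a) If `Tri x`, `x > 0`, is covered by `u` translates of `Tri 1`, `d` translates of `-Tri 1` and
one unit equilateral triangle in arbitrary position and orientation, then
`u + d ≥ 2 (u - d) x - (u - d)^2`.
(b) If moreover `d ≤ u` and `u - d - 1 ≤ x ≤ u - d + 1`, this condition is also sufficient, and
then the extra triangle can be taken parallel to the others.
(c) For `n ≥ 1` and `ε > 0` the triangle `Tri (n + ε)` is not covered by `n (n+1) / 2` translates of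
`Tri 1`, `n (n-1) / 2` translates of `-Tri 1` and one unit equilateral triangle. -/
theorem result :
    (∀ x : ℝ, 0 < x → ∀ u d : ℕ, Covers x u d →
      2 * ((u : ℝ) - d) * x - ((u : ℝ) - d) ^ 2 ≤ u + d) ∧
    (∀ x : ℝ, 0 < x → ∀ u d : ℕ, d ≤ u → (u : ℝ) - d - 1 ≤ x → x ≤ (u : ℝ) - d + 1 →
      (Covers x u d ↔ 2 * ((u : ℝ) - d) * x - ((u : ℝ) - d) ^ 2 ≤ u + d) ∧
      (Covers x u d ↔ CoversPar x u d)) ∧
    (∀ n : ℕ, 1 ≤ n → ∀ ε : ℝ, 0 < ε →
      ¬ Covers (n + ε) (n * (n + 1) / 2) (n * (n - 1) / 2)) := by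
  have ha : ∀ x : ℝ, 0 < x → ∀ u d : ℕ, Covers x u d →
      2 * ((u : ℝ) - d) * x - ((u : ℝ) - d) ^ 2 ≤ u + d := by
    rintro x hx u d ⟨P, Q, A, B, C, h1, h2, h3, h⟩
    exact Pool.Agent.TurnOne.main_plane hx u d P Q A B C h1 h2 h3 h
  refine ⟨ha, fun x hx u d hud h1 h2 => Pool.Agent.TurnOne.covers_iff hx u d hud h1 h2, ?_⟩
  intro n hn ε hε h
  have hn' : (1 : ℝ) ≤ n := by exact_mod_cast hn
  have hx : (0 : ℝ) < n + ε := by linarith
  have h4 := ha _ hx _ _ h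
  have e1 : 2 * (n * (n + 1) / 2) = n * (n + 1) :=
    Nat.mul_div_cancel' (Nat.even_mul_succ_self n).two_dvd
  have e2 : 2 * (n * (n - 1) / 2) = n * (n - 1) :=
    Nat.mul_div_cancel' (Nat.even_mul_pred_self n).two_dvd
  have e3 : 2 * ((n * (n + 1) / 2 : ℕ) : ℝ) = n * (n + 1) := by exact_mod_cast e1
  have e4 : 2 * ((n * (n - 1) / 2 : ℕ) : ℝ) = n * (n - 1) := by
    have : ((2 * (n * (n - 1) / 2) : ℕ) : ℝ) = ((n * (n - 1) : ℕ) : ℝ) := by rw [e2]
    push_cast [Nat.cast_sub hn] at this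
    push_cast
    exact this
  have e5 : ((n * (n + 1) / 2 : ℕ) : ℝ) - ((n * (n - 1) / 2 : ℕ) : ℝ) = n := by
    linarith [show (n : ℝ) * (n + 1) - n * (n - 1) = 2 * n by ring]
  have e6 : ((n * (n + 1) / 2 : ℕ) : ℝ) + ((n * (n - 1) / 2 : ℕ) : ℝ) = n ^ 2 := by
    linarith [show (n : ℝ) * (n + 1) + n * (n - 1) = 2 * n ^ 2 by ring]
  rw [e5, e6] at h4
  nlinarith

end Pool.Agent.Results.MP_d1c650_co.OneTurnedTriangle
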