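import Pool.Agent.H74Amp.Link

/-!
# Equivalent forms of Q1: few turned triangles and large `n` suffice

`Tri x` is the closed equilateral triangle with vertices `0`, `x`, `x e^(iπ/3)` in the complex
plane.
-/

set_option autoImplicit false

namespace Pool.Agent.Results.MP_d1c650_co.RotationCriterion

open Set

/-- The closed triangle with vertices `0`, `s`, `s e^(iπ/3)`. -/
noncomputable def Tri (s : ℝ) : Set ℂ :=
  convexHull ℝ {0, (s : ℂ), (s : ℂ) * Complex.exp ((Real.pi : ℂ) / 3 * Complex.I)}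

/-- `N` unit equilateral triangles `a i`, `b i`, `c i`, in arbitrary positions and orientations,
cover `Tri x`. -/
def UCov (x : ℝ) (N : ℕ) : Prop :=
  ∃ a b c : Fin N → ℂ, (∀ i, dist (a i) (b i) = 1 ∧ dist (b i) (c i) = 1 ∧ dist (a i) (c i) = 1) ∧
    Tri x ⊆ ⋃ i, convexHull ℝ ({a i, b i, c i} : Set ℂ)

/-- `k ≤ r` unit triangles in arbitrary positions and orientations together with `N - k` translates
of `Tri 1` and `-Tri 1` cover `Tri x`. -/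
def RCov (r : ℕ) (x : ℝ) (N : ℕ) : Prop :=
  ∃ (k m : ℕ) (a b c : Fin k → ℂ) (z e : Fin m → ℂ), k ≤ r ∧ k + m = N ∧
    (∀ i, dist (a i) (b i) = 1 ∧ dist (b i) (c i) = 1 ∧ dist (a i) (c i) = 1) ∧
    (∀ j, e j = 1 ∨ e j = -1) ∧
    Tri x ⊆ (⋃ i, convexHull ℝ ({a i, b i, c i} : Set ℂ)) ∪
      ⋃ j, {p | ∃ w ∈ Tri 1, p = z j + e j * w}

/-- The assertion of Q1. -/
def Q1 : Prop := ∀ n : ℕ, 1 ≤ n → ∀ ε : ℝ, 0 < ε → ¬ UCov (n + ε) (n ^ 2 + 1)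

/-- The assertion of Q1 for covers with at most `r` turned triangles. -/
def Q1r (r : ℕ) : Prop := ∀ n : ℕ, 1 ≤ n → ∀ ε : ℝ, 0 < ε → ¬ RCov r (n + ε) (n ^ 2 + 1)

/-- Q1 holds iff
(A) for every `r` there are arbitrarily large `n` such that no `n ^ 2 + 1` unit triangles, at most
`r` of them turned, cover `Tri (n + ε)`, `ε > 0`;
(B) iff for all `n` and `0 < t ≤ 1`, `N` unit triangles cover `Tri (n + t)` exactly when
`N ≥ min (n ^ 2 + 2 ⌈(n + 1) t⌉) (n ^ 2 + 1 + 2 ⌈n t⌉)`;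
(C) iff for all `x > 0` and `N`: if `N` unit triangles cover `Tri x` then `N` translates of `Tri 1`
and of `-Tri 1` cover `Tri x`.
For every `r`: (D1) covers of `Tri (n + ε)` by `n ^ 2 + 1` triangles give covers of
`Tri (m + n ε / m)` by `m ^ 2 + 1` triangles, `m ≥ n`; (D2) a cover of `Tri x` by
`m ^ 2 + 1 + 2 q` triangles, `s = m (x - m)`, gives a cover of some `Tri (n + ε)` by `n ^ 2 + 1`
triangles for every `n > m`, `n > q` with `(n - 1) (s - q) > q s`; (E) three equivalent forms of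
`Q1r r`. -/
theorem result :
    (Q1 ↔ ∀ r K : ℕ, ∃ n ≥ K, ∀ ε : ℝ, 0 < ε → ¬ RCov r (n + ε) (n ^ 2 + 1)) ∧
    (Q1 ↔ ∀ n : ℕ, ∀ t : ℝ, 0 < t → t ≤ 1 → ∀ N : ℕ, (UCov (n + t) N ↔
      min (n ^ 2 + 2 * ⌈((n : ℝ) + 1) * t⌉₊) (n ^ 2 + 1 + 2 * ⌈(n : ℝ) * t⌉₊) ≤ N)) ∧
    (Q1 ↔ ∀ x : ℝ, 0 < x → ∀ N : ℕ, UCov x N → RCov 0 x N) ∧
    (∀ r : ℕ,
      (∀ n : ℕ, 1 ≤ n → ∀ ε : ℝ, 0 < ε → RCov r (n + ε) (n ^ 2 + 1) →
        ∀ m : ℕ, n ≤ m → RCov r (m + n * ε / m) (m ^ 2 + 1)) ∧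
      (∀ m : ℕ, 1 ≤ m → ∀ x : ℝ, 0 < x → ∀ (q : ℤ) (N : ℕ), (N : ℤ) = m ^ 2 + 1 + 2 * q →
        RCov r x N → ∀ n : ℕ, m < n → q < n →
          q * (m * (x - m)) < ((n : ℝ) - 1) * (m * (x - m) - q) →
            ∃ ε : ℝ, 0 < ε ∧ RCov r (n + ε) (n ^ 2 + 1)) ∧
      (∀ q : ℤ, Q1r r ↔ ∀ K : ℕ, ∃ m ≥ K, ∃ N : ℕ, (N : ℤ) = m ^ 2 + 1 + 2 * q ∧
        ∀ η : ℝ, 0 < η → ¬ RCov r (m + q / m + η) N) ∧
      (Q1r r ↔ ∀ x : ℝ, 0 < x → ∀ N : ℕ, RCov r x N → ∀ j : ℕ, 1 ≤ j → Odd (N + j) →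
        x ^ 2 + 1 - (x - j) ^ 2 ≤ N) ∧
      (Q1r r ↔ ∀ x : ℝ, 0 < x → ∀ N : ℕ, RCov r x N → RCov 0 x N)) :=
  ⟨Pool.Agent.H74Amp.q1_iff_large,
    Pool.Agent.H74Amp.q1_iff_exact_all,
    Pool.Agent.H74Amp.q1_iff_par_all,
    fun r => ⟨fun _ hn _ hε h _ hm => Pool.Agent.H74Amp.propagate hn hε h hm,
      fun _ hm _ hx _ _ hN h _ hn hq h1 => Pool.Agent.H74Amp.beat hm hx hN h hn hq h1,
      Pool.Agent.H74Amp.q1_iff_q r,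
      Pool.Agent.H74Amp.q1_iff_area r,
      Pool.Agent.H74Amp.q1_iff_par r⟩⟩

end Pool.Agent.Results.MP_d1c650_co.RotationCriterion
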